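import Pool.Agent.L7h97.G5.Gen

/-! Project GX: FEW and BAD (port of `Pool/Agent/Y433/XK/Few.lean`). -/

set_option autoImplicit false

open scoped Classical

namespace Pool.Agent.L7h97.G5.F

open Finset Filter
open H385 (ZI nrm)
open Pool.Agent.Y699 hiding kk
open Pool.Agent.Y703.CX (eL zz kk)
open Pool.Agent.L7h3.GX (Sol Gd S_BIL prs HB S_EQ ext GdA S_LA Nd S_BOX sm la bl)
open Pool.Agent.L7h97.G5

/-- the large parts are counted by squarefree elements -/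
theorem fiber_le (X z : ℕ) (S₀ : Finset ZI) (hS₀ : ∀ u ∈ S₀, PP u)
    (F : Finset (Finset ZI)) (hF : ∀ S ∈ F, S ∈ SS X ∧ sm z S = S₀) (g : ZI → ℝ)
    (hg : ∀ π, 0 ≤ g π) (c : ℝ) (hc : ∀ S ∈ F, c ≤ ∏ π ∈ la z S, g π) :
    (F.card : ℝ) * c ≤ ∑ n ∈ SB (X / pN S₀), mf g n := by
  have hpr : ∀ S ∈ F, (∀ π ∈ S, PP π) ∧ ∏ π ∈ S, nrm π ≤ X := by
    intro S hS
    have h := (hF S hS).1
    unfold SS at h
    rw [mem_filter] at h
    exact ⟨h.2.1.1, h.2.2⟩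
  rw [← nsmul_eq_mul, ← sum_const]
  refine sum_le_inj (fun S => ∏ π ∈ la z S, π) ?_ ?_ ?_ ?_
  · intro S hS
    obtain ⟨h1, h2⟩ := hpr S hS
    rw [mem_SB]
    refine ⟨?_, (PS_prod fun π hπ => h1 π (filter_subset _ _ hπ)).1⟩
    rw [Nat.le_div_iff_mul_le (pN_pos hS₀), nrm_prod, mul_comm]
    have : (∏ π ∈ sm z S, nrm π) * ∏ π ∈ la z S, nrm π = ∏ π ∈ S, nrm π :=
      prod_filter_mul_prod_filter_not _ _ _
    unfold pN
    rw [← (hF S hS).2, this]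
    exact h2
  · intro S hS T hT h
    have e1 := (PS_prod (S := la z S) fun π hπ => (hpr S hS).1 π (filter_subset _ _ hπ)).2
    have e2 := (PS_prod (S := la z T) fun π hπ => (hpr T hT).1 π (filter_subset _ _ hπ)).2
    have e3 : la z S = la z T := by
      rw [← e1, ← e2]
      exact congrArg PD h
    have key : ∀ S : Finset ZI, sm z S ∪ la z S = S := fun S => filter_union_filter_not_eq _ _
    rw [← key S, ← key T, (hF S hS).2, (hF T hT).2, e3]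
  · intro S hS
    refine (hc S hS).trans (le_of_eq ?_)
    unfold mf
    rw [(PS_prod (S := la z S) fun π hπ => (hpr S hS).1 π (filter_subset _ _ hπ)).2]
  · intro n _
    exact mf_nonneg hg n

theorem sqrt_rpow (T : ℕ) : (T : ℝ) / Real.sqrt (lg T) ≤ T * (lg T) ^ (-(1 / 3) : ℝ) := by
  have h1 := one_le_lg T
  have h0 : 0 < lg T := lg_pos T
  rw [Real.sqrt_eq_rpow, div_eq_mul_inv, ← Real.rpow_neg h0.le]
  apply mul_le_mul_of_nonneg_left _ (Nat.cast_nonneg _)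
  exact Real.rpow_le_rpow_of_exponent_le h1 (by norm_num)

theorem few_count (V : ℕ) (X : ℕ) (S₀ : Finset ZI) (hS₀ : ∀ u ∈ S₀, PP u ∧ nrm u ≤ zz X)
    (F : Finset (Finset ZI))
    (hF : ∀ S ∈ F, S ∈ SS X ∧ (S.card ≤ kk X ∧ (la (zz X) S).card ≤ (sm (zz X) S).card + V) ∧
      sm (zz X) S = S₀) : (F.card : ℝ) ≤
        126 * 2 ^ V * 2 ^ S₀.card * lg (pN S₀) * (((X / pN S₀ : ℕ) : ℝ) *
          (lg (X / pN S₀)) ^ (-(1 / 3) : ℝ)) := by
  have h := fiber_le X (zz X) S₀ (fun u hu => (hS₀ u hu).1)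
    F (fun S hS => ⟨(hF S hS).1, (hF S hS).2.2⟩) (fun _ => 1 / 2) (fun _ => by norm_num)
    ((1 / 2) ^ (S₀.card + V)) (fun S hS => by
        replace hS := hF S hS
        rw [prod_const]
        refine pow_le_pow_of_le_one (by norm_num) (by norm_num) ?_
        have := hS.2.1.2
        rw [hS.2.2] at this
        exact this)
  have h2 := h.trans ((hall0 (X / pN S₀)).trans
    (mul_le_mul_of_nonneg_left (sqrt_rpow (X / pN S₀)) (by norm_num)))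
  have hlg := one_le_lg (pN S₀)
  have h3 : (2 : ℝ) ^ (S₀.card + V) * (1 / 2) ^ (S₀.card + V) = 1 := by
    rw [← mul_pow]
    norm_num
  set c := (F.card : ℝ) with hcdef
  have hTl : 0 ≤ ((X / pN S₀ : ℕ) : ℝ) * (lg (X / pN S₀)) ^ (-(1 / 3) : ℝ) :=
    mul_nonneg (Nat.cast_nonneg _) (Real.rpow_nonneg (zero_le_one.trans (one_le_lg _)) _)
  calc c = (2 : ℝ) ^ (S₀.card + V) * (c * (1 / 2) ^ (S₀.card + V)) := by
        linear_combination (-c) * h3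
    _ ≤ (2 : ℝ) ^ (S₀.card + V) * (126 * (((X / pN S₀ : ℕ) : ℝ) *
          (lg (X / pN S₀)) ^ (-(1 / 3) : ℝ))) := mul_le_mul_of_nonneg_left h2 (by positivity)
    _ = (126 * 2 ^ V * 2 ^ S₀.card) * 1 * (((X / pN S₀ : ℕ) : ℝ) *
          (lg (X / pN S₀)) ^ (-(1 / 3) : ℝ)) := by rw [pow_add]; ring
    _ ≤ (126 * 2 ^ V * 2 ^ S₀.card) * lg (pN S₀) * (((X / pN S₀ : ℕ) : ℝ) *
          (lg (X / pN S₀)) ^ (-(1 / 3) : ℝ)) := by gcongr

theorem t_FEW : S_FEW := by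
  intro V ε hε
  obtain ⟨X₀, hX₀⟩ := gen 2 (126 * 2 ^ V) (by norm_num) (by positivity)
    (fun X S => (la (zz X) S).card ≤ (sm (zz X) S).card + V)
    (fun X S₀ hS₀ _ F hF => few_count V X S₀ hS₀ F hF) ε hε
  refine ⟨X₀, fun X hX => hX₀ X hX _ fun S hS => ?_⟩
  rw [mem_filter] at hS
  exact hS

/-- the labels are degenerate with respect to a set -/
def Dg (A : Finset ZI) (T : Finset ZI) : Prop :=
  ∀ π ∈ T, ∑ u ∈ A, ep u π = 0

theorem notNd {S₀ T : Finset ZI} (h : ¬ Nd S₀ T) : ∃ A : Finset ZI, A ⊆ S₀ ∧ A ≠ ∅ ∧ Dg A T := by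
  unfold Nd at h
  push Not at h
  obtain ⟨v, ⟨u, hu, hu0⟩, h2⟩ := h
  have key : ∀ c : ZMod 2, c ≠ 0 → c = 1 := by decide
  refine ⟨S₀.filter fun u => v u = 1, filter_subset _ _, ?_, ?_⟩
  · intro heq
    have : u ∈ S₀.filter fun u => v u = 1 := by
      rw [mem_filter]
      exact ⟨hu, key _ hu0⟩
    rw [heq] at this
    exact absurd this (notMem_empty _)
  · intro π hπ
    have h3 := h2 π hπ
    rw [← h3, sum_filter]
    refine sum_congr rfl fun u _ => ?_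
    have key : ∀ a b : ZMod 2, (if a = 1 then b else 0) = a * b := by
      decide
    exact key (v u) (ep u π)

theorem one_count (X z : ℕ) (S₀ : Finset ZI) (hS₀ : ∀ u ∈ S₀, PP u ∧ nrm u ≤ z)
    (A : Finset ZI) (hA : A ⊆ S₀) (hA0 : A ≠ ∅)
    (F : Finset (Finset ZI)) (hF : ∀ S ∈ F, (S ∈ SS X ∧ sm z S = S₀) ∧ Dg A (la z S)) :
    (F.card : ℝ) ≤ 1680 * lg (pN S₀) * (((X / pN S₀ : ℕ) : ℝ) *
          (lg (X / pN S₀)) ^ (-(1 / 3) : ℝ)) := by
  obtain ⟨a1, a2⟩ := PS_prod (S := A) fun π hπ => (hS₀ π (hA hπ)).1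
  set a := ∏ π ∈ A, π with ha
  have ha1 : a ≠ 1 := by
    intro h
    apply hA0
    rw [← a2, h, PD_one]
  have hval : ∀ S ∈ F, ∀ π ∈ la z S, jac a π = 1 := by
    intro S hS π hπ
    obtain ⟨⟨h1, h2⟩, h3⟩ := hF S hS
    have hπq : PP π ∧ ¬ nrm π ≤ z := by
      unfold la at hπ
      rw [mem_filter] at hπ
      unfold SS at h1
      rw [mem_filter] at h1
      exact ⟨h1.2.1.1 π hπ.1, hπ.2⟩
    have hchi : ∀ u ∈ S₀, qr u π = sg (ep u π) := by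
      intro u hu
      refine qr_ep fun hdv => ?_
      have := (hS₀ u hu).1.eq_of_dvd hπq.1 hdv
      subst this
      exact hπq.2 (hS₀ u hu).2
    unfold jac
    rw [a2, prod_congr rfl fun u hu => hchi u (hA hu), ← sg_sum, h3 π hπ]
    rfl
  have h := fiber_le X z S₀ (fun u hu => (hS₀ u hu).1) F (fun S hS => (hF S hS).1)
    (fun π => (1 + (jac a π : ℝ)) / 2) (fun π => by
      have := (abs_le.1 (jac_abs a π)).1
      linarith) 1 (fun S hS => by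
      refine le_of_eq (prod_eq_one fun π hπ => ?_).symm
      rw [hval S hS π hπ]
      norm_num)
  rw [mul_one] at h
  refine h.trans ((hallG a1 ha1 _).trans ?_)
  have hnn : nrm a ≤ pN S₀ := by
    rw [ha, nrm_prod]
    unfold pN
    refine prod_le_prod_of_subset_of_one_le' hA fun u hu _ => ?_
    exact nrm_pos' (hS₀ u hu).1.ne
  have h4 : Real.sqrt (lg (nrm a)) ≤ lg (pN S₀) := by
    refine le_trans ?_ (lg_mono hnn)
    have h1 := one_le_lg (nrm a)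
    rw [Real.sqrt_le_left (by linarith)]
    nlinarith
  have h5 := sqrt_rpow (X / pN S₀)
  have hTl : 0 ≤ ((X / pN S₀ : ℕ) : ℝ) * (lg (X / pN S₀)) ^ (-(1 / 3) : ℝ) :=
    mul_nonneg (Nat.cast_nonneg _) (Real.rpow_nonneg (zero_le_one.trans (one_le_lg _)) _)
  have h6 : 0 ≤ lg (pN S₀) := (lg_pos _).le
  gcongr

theorem bad_count (X : ℕ) (S₀ : Finset ZI) (hS₀ : ∀ u ∈ S₀, PP u ∧ nrm u ≤ zz X)
    (G : Finset (Finset ZI))
    (hG : ∀ S ∈ G, S ∈ SS X ∧ (S.card ≤ kk X ∧ ¬ Nd (sm (zz X) S) (la (zz X) S)) ∧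
      sm (zz X) S = S₀) : (G.card : ℝ) ≤
        1680 * 2 ^ S₀.card * lg (pN S₀) * (((X / pN S₀ : ℕ) : ℝ) *
          (lg (X / pN S₀)) ^ (-(1 / 3) : ℝ)) := by
  set P := S₀.powerset.filter fun p => p ≠ ∅ with hP
  have hsub : G ⊆ P.biUnion fun p => G.filter fun S => Dg p (la (zz X) S) := by
    intro S hS
    obtain ⟨h1, ⟨h2, h3⟩, h4⟩ := hG S hS
    rw [h4] at h3
    obtain ⟨A, hA, hA0, hDg⟩ := notNd h3
    rw [mem_biUnion]
    refine ⟨A, ?_, ?_⟩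
    · rw [hP, mem_filter, mem_powerset]
      exact ⟨hA, hA0⟩
    · rw [mem_filter]
      exact ⟨hS, hDg⟩
  have h1 : (G.card : ℝ) ≤ ∑ p ∈ P, ((G.filter fun S => Dg p (la (zz X) S)).card : ℝ) := by
    exact_mod_cast (card_le_card hsub).trans card_biUnion_le
  have h2 : ∀ p ∈ P, ((G.filter fun S => Dg p (la (zz X) S)).card : ℝ) ≤
      1680 * lg (pN S₀) * (((X / pN S₀ : ℕ) : ℝ) * (lg (X / pN S₀)) ^ (-(1 / 3) : ℝ)) := by
    intro p hp
    rw [hP, mem_filter, mem_powerset] at hp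
    refine one_count X (zz X) S₀ hS₀ p hp.1 hp.2 _ ?_
    intro S hS
    rw [mem_filter] at hS
    have h := hG S hS.1
    exact ⟨⟨h.1, h.2.2⟩, hS.2⟩
  have h3 : (P.card : ℝ) ≤ 2 ^ S₀.card := by
    have : P.card ≤ 2 ^ S₀.card := by
      refine (card_filter_le _ _).trans (le_of_eq ?_)
      rw [card_powerset]
    exact_mod_cast this
  have hTl : 0 ≤ ((X / pN S₀ : ℕ) : ℝ) * (lg (X / pN S₀)) ^ (-(1 / 3) : ℝ) :=
    mul_nonneg (Nat.cast_nonneg _) (Real.rpow_nonneg (zero_le_one.trans (one_le_lg _)) _)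
  have hlg := lg_pos (pN S₀)
  calc (G.card : ℝ) ≤ ∑ p ∈ P, 1680 * lg (pN S₀) * (((X / pN S₀ : ℕ) : ℝ) *
        (lg (X / pN S₀)) ^ (-(1 / 3) : ℝ)) := h1.trans (sum_le_sum h2)
    _ = P.card * (1680 * lg (pN S₀) * (((X / pN S₀ : ℕ) : ℝ) *
        (lg (X / pN S₀)) ^ (-(1 / 3) : ℝ))) := by rw [sum_const, nsmul_eq_mul]
    _ ≤ 2 ^ S₀.card * (1680 * lg (pN S₀) * (((X / pN S₀ : ℕ) : ℝ) *
        (lg (X / pN S₀)) ^ (-(1 / 3) : ℝ))) :=
        mul_le_mul_of_nonneg_right h3 (by positivity)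
    _ = _ := by ring

theorem t_BAD : S_BAD := by
  intro ε hε
  obtain ⟨X₀, hX₀⟩ := gen 2 1680 (by norm_num) (by norm_num)
    (fun X S => ¬ Nd (sm (zz X) S) (la (zz X) S))
    (fun X S₀ hS₀ _ F hF => bad_count X S₀ hS₀ F hF) ε hε
  refine ⟨X₀, fun X hX => hX₀ X hX _ fun S hS => ?_⟩
  rw [mem_filter] at hS
  exact hS

end Pool.Agent.L7h97.G5.F
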