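import Pool.Agent.L7h97.G5.Stm
import Pool.Agent.L7h97.GX.LOW

/-!
# Project QD, part DEN5: the class `N(D) = 5` modulo `16` has positive density
-/

set_option autoImplicit false

open scoped Classical

namespace Pool.Agent.L7h97.G5

open Finset
open H385 (ZI nrm)
open Pool.Agent.Y699 (PP PS PD qr ep QB mem_QB mem_PD nrm_prod)
open Pool.Agent.H304R2.EC.A1 (prim)

/-- a primary prime of norm `41` -/
def p41 : ZI := ⟨5, 4⟩

lemma nrm_p41 : nrm p41 = 41 := by
  unfold nrm p41
  rw [Zsqrtd.norm_def]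
  norm_num

lemma pp_p41 : PP p41 := by
  have hn : Zsqrtd.norm p41 = 41 := by
    unfold p41
    rw [Zsqrtd.norm_def]
    norm_num
  refine ⟨?_, ?_⟩
  · rw [← irreducible_iff_prime]
    refine ⟨?_, ?_⟩
    · intro h
      have h1 := Zsqrtd.norm_eq_one_iff.2 h
      rw [hn] at h1
      norm_num at h1
    · intro a b hab
      have h1 : a.norm.natAbs * b.norm.natAbs = 41 := by
        rw [← Int.natAbs_mul, ← Zsqrtd.norm_mul, ← hab, hn]
        rfl
      have hp : Nat.Prime 41 := by norm_num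
      rcases (Nat.dvd_prime hp).1 (Dvd.intro _ h1) with h2 | h2
      · exact Or.inl (Zsqrtd.norm_eq_one_iff.1 h2)
      · right
        apply Zsqrtd.norm_eq_one_iff.1
        rw [h2] at h1
        omega
  · unfold prim p41
    norm_num

/-- the involution -/
noncomputable def tg (S : Finset ZI) : Finset ZI := if p41 ∈ S then S.erase p41 else insert p41 S

lemma tg_tg (S : Finset ZI) : tg (tg S) = S := by
  unfold tg
  by_cases h : p41 ∈ S
  · rw [if_pos h, if_neg (by simp), insert_erase h]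
  · rw [if_neg h, if_pos (by simp), erase_insert h]

lemma card_le (X : ℕ) : (Pool.Agent.L7h3.GX.SS (X / 41)).card ≤ (SS X).card := by
  apply Finset.card_le_card_of_injOn tg
  · intro S hS
    rw [Finset.mem_coe] at hS ⊢
    unfold Pool.Agent.L7h3.GX.SS at hS
    rw [mem_filter, mem_powerset] at hS
    obtain ⟨h1, ⟨h2, h3⟩, h4⟩ := hS
    have hX : X / 41 ≤ X := Nat.div_le_self _ _
    unfold SS
    rw [mem_filter, mem_powerset]
    unfold tg
    by_cases h : p41 ∈ S
    · rw [if_pos h]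
      have h5 := mul_prod_erase S nrm h
      rw [nrm_p41] at h5
      refine ⟨fun π hπ => ?_, ⟨fun π hπ => h2 π (mem_of_mem_erase hπ), by omega⟩, by omega⟩
      obtain ⟨h6, h7⟩ := mem_QB.1 (h1 (mem_of_mem_erase hπ))
      exact mem_QB.2 ⟨h6.trans hX, h7⟩
    · rw [if_neg h]
      have h5 : ∏ π ∈ insert p41 S, nrm π = 41 * ∏ π ∈ S, nrm π := by
        rw [prod_insert h, nrm_p41]
      have h6 : 41 * (X / 41) ≤ X := Nat.mul_div_le _ _
      have h7 : 0 < ∏ π ∈ S, nrm π := by omega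
      refine ⟨fun π hπ => ?_, ⟨fun π hπ => ?_, by rw [h5]; omega⟩, by rw [h5]; omega⟩
      · rcases mem_insert.1 hπ with rfl | hπ
        · exact mem_QB.2 ⟨by rw [nrm_p41]; omega, pp_p41⟩
        · obtain ⟨h6, h7⟩ := mem_QB.1 (h1 hπ)
          exact mem_QB.2 ⟨h6.trans hX, h7⟩
      · rcases mem_insert.1 hπ with rfl | hπ
        · exact pp_p41
        · exact h2 π hπ
  · intro S _ S' _ h
    have h1 := congrArg tg h
    rwa [tg_tg, tg_tg] at h1

theorem t_LOW : S_LOW := by
  obtain ⟨c, X₀, hc, h⟩ := Pool.Agent.L7h97.GX.t_LOW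
  refine ⟨c / 82, max (41 * (X₀ + 1)) 82, by positivity, fun X hX => ?_⟩
  have h1 : 41 * (X₀ + 1) ≤ X := (le_max_left _ _).trans hX
  have h2 : 82 ≤ X := (le_max_right _ _).trans hX
  have h3 := h (X / 41) (by omega)
  have h4 : ((Pool.Agent.L7h3.GX.SS (X / 41)).card : ℝ) ≤ ((SS X).card : ℝ) := by
    exact_mod_cast card_le X
  have h5 : (X : ℝ) ≤ 82 * ((X / 41 : ℕ) : ℝ) := by
    have : X ≤ 82 * (X / 41) := by omega
    exact_mod_cast this
  calc c / 82 * X ≤ c / 82 * (82 * ((X / 41 : ℕ) : ℝ)) :=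
        mul_le_mul_of_nonneg_left h5 (by positivity)
    _ = c * ((X / 41 : ℕ) : ℝ) := by ring
    _ ≤ _ := h3.trans h4

end Pool.Agent.L7h97.G5
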