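import Pool.Agent.L7h3.QD.Den
import Pool.Agent.L7h97.G5.NS
import Pool.Agent.L7h97.G5.CNT
import Pool.Agent.L7h97.G5.BAD
import Pool.Agent.L7h97.G5.ASY
import Pool.Agent.L7h97.G5.LOW
import Pool.Agent.L7h97.G5.KEY

/-!
# Project QD, parts DEN5 and DEN8

Ports of the parts of project GX: NS, CNT by helper77, Gen, BAD, ASY by helper97, KEY by helper23;
BIL, EQ, BOX by helper77 and LA by helper47 are used as they are.
-/

set_option autoImplicit false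

open scoped Classical

namespace Pool.Agent.L7h97.G5

open Finset Filter
open H385 (ZI nrm)
open Pool.Agent.Y699 (PS PD)
open Pool.Agent.L7h3.GX (Gd)
open Pool.Agent.Y703.CQ (c2)

theorem t_DQ : S_DQ :=
  A.t_ASY Pool.Agent.L7h77.GX.t_BIL Pool.Agent.L7h77.GX.t_EQ
    Pool.Agent.L7h47.GX.t_LA Pool.Agent.L7h77.GX.t_BOX K.t_KEY
    CN.t_CNT F.t_BAD F.t_FEW t_LOW Pool.Agent.Y948.CQ.t_C2

/-- **the exact proportion** -/
theorem t_DEN : S_DEN := N.t_NS t_DQ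

end Pool.Agent.L7h97.G5

namespace Pool.Agent.L7h97.QD

open Finset Filter
open H385 (ZI nrm)
open Pool.Agent.Y699 (PS PD)
open Pool.Agent.L7h3.GX (Gd)
open Pool.Agent.Y703.CQ (c2)
open Pool.Agent.L7h3.QD (S_DEN5 S_DEN8)

theorem t_DEN5 : S_DEN5 := Pool.Agent.L7h97.G5.t_DEN

lemma ratio (a₁ a₂ b₁ b₂ c : ℝ) (h1 : 0 ≤ a₁) (h2 : a₁ ≤ b₁) (h3 : 0 ≤ a₂) (h4 : a₂ ≤ b₂) :
    |(a₁ + a₂) / (b₁ + b₂) - c| ≤ |a₁ / b₁ - c| + |a₂ / b₂ - c| := by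
  rcases (h1.trans h2).eq_or_lt with hb1 | hb1
  · have ha : a₁ = 0 := le_antisymm (h2.trans hb1.symm.le) h1
    rw [ha, ← hb1, zero_add, zero_add]
    linarith [abs_nonneg ((0 : ℝ) / 0 - c)]
  rcases (h3.trans h4).eq_or_lt with hb2 | hb2
  · have ha : a₂ = 0 := le_antisymm (h4.trans hb2.symm.le) h3
    rw [ha, ← hb2, add_zero, add_zero]
    linarith [abs_nonneg ((0 : ℝ) / 0 - c)]
  have hb : 0 < b₁ + b₂ := by linarith
  have e : (a₁ + a₂) / (b₁ + b₂) - c = (b₁ * (a₁ / b₁ - c) + b₂ * (a₂ / b₂ - c)) / (b₁ + b₂) := by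
    field_simp
    ring
  rw [e, abs_div, abs_of_pos hb, div_le_iff₀ hb]
  refine (abs_add_le _ _).trans ?_
  rw [abs_mul, abs_mul, abs_of_pos hb1, abs_of_pos hb2]
  have := abs_nonneg (a₁ / b₁ - c)
  have := abs_nonneg (a₂ / b₂ - c)
  nlinarith

lemma fin_nrm (X : ℕ) : {D : ZI | nrm D ≤ X}.Finite := by
  refine (Pool.Agent.Y699.ZB X).finite_toSet.subset fun D hD => ?_
  exact Pool.Agent.Y699.mem_ZB.2 hD

theorem t_DEN8 : S_DEN8 := by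
  have h13 : Tendsto
      (fun X : ℕ => ({D : ZI | nrm D ≤ X ∧ (PS D ∧ nrm D % 16 = 13) ∧ Gd (PD D)}.ncard : ℝ) /
      ({D : ZI | nrm D ≤ X ∧ (PS D ∧ nrm D % 16 = 13)}.ncard : ℝ)) atTop (nhds c2) :=
    Pool.Agent.L7h3.GX.t_DEN
  have h5 : Tendsto
      (fun X : ℕ => ({D : ZI | nrm D ≤ X ∧ (PS D ∧ nrm D % 16 = 5) ∧ Gd (PD D)}.ncard : ℝ) /
      ({D : ZI | nrm D ≤ X ∧ (PS D ∧ nrm D % 16 = 5)}.ncard : ℝ)) atTop (nhds c2) := t_DEN5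
  unfold S_DEN8
  have hfin : ∀ (X : ℕ) (P : ZI → Prop), {D : ZI | nrm D ≤ X ∧ P D}.Finite := fun X P =>
    (fin_nrm X).subset fun D hD => hD.1
  have hsplit : ∀ (X : ℕ) (P : ZI → Prop),
      ({D : ZI | nrm D ≤ X ∧ (PS D ∧ nrm D % 8 = 5) ∧ P D}.ncard : ℝ) =
        ({D : ZI | nrm D ≤ X ∧ (PS D ∧ nrm D % 16 = 13) ∧ P D}.ncard : ℝ) +
        ({D : ZI | nrm D ≤ X ∧ (PS D ∧ nrm D % 16 = 5) ∧ P D}.ncard : ℝ) := by
    intro X P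
    have e1 : {D : ZI | nrm D ≤ X ∧ (PS D ∧ nrm D % 8 = 5) ∧ P D} =
        {D : ZI | nrm D ≤ X ∧ (PS D ∧ nrm D % 16 = 13) ∧ P D} ∪
        {D : ZI | nrm D ≤ X ∧ (PS D ∧ nrm D % 16 = 5) ∧ P D} := by
      ext D
      simp only [Set.mem_ofPred_eq, Set.mem_union]
      constructor
      · rintro ⟨h1, ⟨h2, h3⟩, h4⟩
        have h5 : nrm D % 16 = 13 ∨ nrm D % 16 = 5 := by omega
        rcases h5 with h5 | h5
        · exact Or.inl ⟨h1, ⟨h2, h5⟩, h4⟩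
        · exact Or.inr ⟨h1, ⟨h2, h5⟩, h4⟩
      · rintro (⟨h1, ⟨h2, h3⟩, h4⟩ | ⟨h1, ⟨h2, h3⟩, h4⟩)
        · exact ⟨h1, ⟨h2, by omega⟩, h4⟩
        · exact ⟨h1, ⟨h2, by omega⟩, h4⟩
    rw [e1, Set.ncard_union_eq _ (hfin _ _) (hfin _ _)]
    · push_cast
      rfl
    · rw [Set.disjoint_left]
      rintro D ⟨_, ⟨_, h3⟩, _⟩ ⟨_, ⟨_, h3'⟩, _⟩
      omega
  have hsplit' : ∀ (X : ℕ),
      ({D : ZI | nrm D ≤ X ∧ (PS D ∧ nrm D % 8 = 5)}.ncard : ℝ) =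
        ({D : ZI | nrm D ≤ X ∧ (PS D ∧ nrm D % 16 = 13)}.ncard : ℝ) +
        ({D : ZI | nrm D ≤ X ∧ (PS D ∧ nrm D % 16 = 5)}.ncard : ℝ) := by
    intro X
    have := hsplit X (fun _ => True)
    simpa only [and_true] using this
  rw [tendsto_iff_norm_sub_tendsto_zero] at h13 h5 ⊢
  have hsum := h13.add h5
  rw [add_zero] at hsum
  refine squeeze_zero (fun _ => norm_nonneg _) (fun X => ?_) hsum
  rw [hsplit X (fun D => Gd (PD D)), hsplit' X, Real.norm_eq_abs, Real.norm_eq_abs,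
    Real.norm_eq_abs]
  have hle : ∀ r : ℕ, ({D : ZI | nrm D ≤ X ∧ (PS D ∧ nrm D % 16 = r) ∧ Gd (PD D)}.ncard : ℝ) ≤
      ({D : ZI | nrm D ≤ X ∧ (PS D ∧ nrm D % 16 = r)}.ncard : ℝ) := by
    intro r
    have hsub : {D : ZI | nrm D ≤ X ∧ (PS D ∧ nrm D % 16 = r) ∧ Gd (PD D)} ⊆
        {D : ZI | nrm D ≤ X ∧ (PS D ∧ nrm D % 16 = r)} := fun D hD => ⟨hD.1, hD.2.1⟩
    exact_mod_cast Set.ncard_le_ncard hsub (hfin _ _)
  exact ratio _ _ _ _ _ (Nat.cast_nonneg _) (hle 13) (Nat.cast_nonneg _) (hle 5)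

end Pool.Agent.L7h97.QD
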