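import Pool.Agent.L7h3.GX.Stm

/-!
# Project QD, part DEN5: the statements of project GX for the class `N(D) = 5` modulo `16`
-/

set_option autoImplicit false
set_option linter.unusedVariables false

open scoped Classical

namespace Pool.Agent.L7h97.G5

open Finset
open H385 (ZI nrm)
open Pool.Agent.Y699 (PP PS PD qr ep QB)
open Pool.Agent.Y703.CX (jj XX eL zz kk)
open Pool.Agent.Y703.CQ (c2 sg S_SYM S_C2)
open Pool.Agent.L7h3.GX (Sol Gd S_BIL prs HB S_EQ ext GdA S_LA Nd S_BOX sm la bl)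

/-- the class of the sets of primary primes -/
def Cl (S : Finset ZI) : Prop := (∀ π ∈ S, PP π) ∧ (∏ π ∈ S, nrm π) % 16 = 5

/-- the sets of the class with norm at most `X` -/
noncomputable def SS (X : ℕ) : Finset (Finset ZI) :=
  (QB X).powerset.filter fun S => Cl S ∧ ∏ π ∈ S, nrm π ≤ X

/-- FINAL: the proportion of the good sets -/
def S_DQ : Prop := Filter.Tendsto
  (fun X : ℕ => (((SS X).filter Gd).card : ℝ) / ((SS X).card : ℝ)) Filter.atTop (nhds c2)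

/-- the class, in terms of the elements -/
def ClsG (D : ZI) : Prop := PS D ∧ nrm D % 16 = 5

/-- FINAL, in terms of the elements `D`. -/
def S_DEN : Prop := Filter.Tendsto
  (fun X : ℕ => ({D : ZI | nrm D ≤ X ∧ ClsG D ∧ Gd (PD D)}.ncard : ℝ) /
    ({D : ZI | nrm D ≤ X ∧ ClsG D}.ncard : ℝ)) Filter.atTop (nhds c2)

/-- GX-NS: the translation (model `Pool/Agent/Y550/XK/NS.lean`, `t_NS`). -/
def S_NS : Prop := S_DQ → S_DEN

/-- GX-LOW: the class has positive density. -/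
def S_LOW : Prop := ∃ (c : ℝ) (X₀ : ℕ), 0 < c ∧ ∀ X : ℕ, X₀ ≤ X → c * X ≤ ((SS X).card : ℝ)

/-- the regular sets -/
noncomputable def RR (X z H k V : ℕ) : Finset (Finset ZI) :=
  (SS X).filter fun S => Set.InjOn (bl H) (la z S : Set ZI) ∧ S.card ≤ k ∧
    (∏ π ∈ sm z S, nrm π) * ∏ π ∈ la z S, XX H (bl H π) ≤ X ∧
    (sm z S).card + V < (la z S).card

/-- GX-KEY: the sum over the boxes (model `Pool/Agent/Y696/XL/Key.lean`, `Key2.lean`, `Key3.lean`,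
with classes modulo `16` instead of `9`). -/
def S_KEY : Prop := S_BIL → S_EQ → S_LA → S_BOX → ∃ C : ℝ, 1 ≤ C ∧
  ∀ (X z H k V N : ℕ) (κ : ℝ), 1 ≤ X → 1 ≤ H → 1 ≤ z → 0 ≤ κ → C ≤ κ ^ 24 * z →
  (H : ℝ) * Real.log X < N →
  |(((RR X z H k V).filter fun S => Nd (sm z S) (la z S) ∧ Gd S).card : ℝ) -
      c2 * (((RR X z H k V).filter fun S => Nd (sm z S) (la z S)).card : ℝ)| ≤
    2 * (1 / 2 : ℝ) ^ V * ((RR X z H k V).card : ℝ) +
    (16 * N + 16 : ℝ) ^ k * (3 ^ (9 * k ^ 2 + 9) * κ) * (X * (1 + Real.log X))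

/-- GX-CNT: sets with many primes, sets near the boundary, sets with two primes in a block (model
`Pool/Agent/Y474/XK/CNT.lean`). -/
structure CntP (C : ℝ) : Prop where
  one : 1 ≤ C
  all : ∀ X : ℕ, 1 ≤ X → ((SS X).card : ℝ) ≤ C * X
  many : ∀ X k : ℕ, 1 ≤ X → (((SS X).filter fun S => k < S.card).card : ℝ) * 2 ^ k ≤
    C * (X * (1 + Real.log X))
  cut : ∀ X z H k : ℕ, 1 ≤ X → 1 ≤ H → 1 ≤ k → (((SS X).filter fun S => S.card ≤ k ∧
    X < (∏ π ∈ sm z S, nrm π) * ∏ π ∈ la z S, XX H (bl H π)).card : ℝ) ≤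
      C * (X * (1 + Real.log X)) * (k / H) + C * X * Real.exp (-(Real.log X) / k)
  coll : ∀ X z H : ℕ, 1 ≤ X → 1 ≤ z → 1 ≤ H → (((SS X).filter fun S =>
    ¬ Set.InjOn (bl H) (la z S : Set ZI)).card : ℝ) ≤ C * (X * (1 + Real.log X)) / H + C * X / z

/-- GX-CNT -/
def S_CNT : Prop := ∃ C : ℝ, CntP C

/-- GX-BAD: few sets have degenerate labels (models `Pool/Agent/Y433/XK/Gen.lean`, `Few.lean`; tool:
`Pool.Agent.Y699.hallG`). -/
def S_BAD : Prop := ∀ ε : ℝ, 0 < ε → ∃ X₀ : ℕ, ∀ X : ℕ, X₀ ≤ X →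
  (((SS X).filter fun S => S.card ≤ kk X ∧ ¬ Nd (sm (zz X) S) (la (zz X) S)).card : ℝ) ≤ ε * X

/-- GX-FEW: few sets have few large primes (models `Pool/Agent/Y433/XK/Gen.lean`, `Few.lean`; tool:
`Pool.Agent.Y699.hall0`). -/
def S_FEW : Prop := ∀ (V : ℕ) (ε : ℝ), 0 < ε → ∃ X₀ : ℕ, ∀ X : ℕ, X₀ ≤ X →
  (((SS X).filter fun S => S.card ≤ kk X ∧ (la (zz X) S).card ≤ (sm (zz X) S).card + V).card : ℝ) ≤
    ε * X

/-- GX-ASY: the assembly (model `Pool/Agent/Y703/XK/Asy.lean`, `t_DQ`). -/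
def S_ASY : Prop := S_BIL → S_EQ → S_LA → S_BOX → S_KEY → S_CNT → S_BAD → S_FEW → S_LOW → S_C2 →
  S_DQ

end Pool.Agent.L7h97.G5
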